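import Mathlib

/-!
# MP_510a26_co: orthogonal pairs of `h`-homogeneous latin squares exist for every `h`

`H + 1` is closed under multiplication (direct products).  On `Z_2² × Z_q` (`q` odd) the squares
`L((x,a),(y,b)) = (x + y, a + m(x) b + α(y))` with suitable `m` and `α` have an orthogonal mate
`M((x,a),(y,b)) = L((x,a),(A y, 2 b))` and give `h = 1`, `h = 2` and every even `h ≥ 4`.
-/

set_option autoImplicit false

namespace Pool.Agent.Results.MP_510a26_co.EveryHomogeneity

/-- `L` is a latin square: all rows and all columns are bijections. -/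
def IsLatin {X : Type} (L : X → X → X) : Prop :=
  (∀ r, Function.Bijective (L r)) ∧ ∀ c, Function.Bijective fun r => L r c

/-- Two squares are orthogonal: the pairs `(L r c, M r c)` are pairwise distinct. -/
def Orthogonal {X : Type} (L M : X → X → X) : Prop :=
  Function.Injective fun p : X × X => (L p.1 p.2, M p.1 p.2)

/-- `L` is `h`-homogeneous: every cell `(r, c)` belongs to exactly `h` intercalates.  An intercalate
that contains the cell `(r, c)` is given by its other row `p.1 ≠ r` and its other column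
`p.2 ≠ c`. -/
def IsHomogeneous {X : Type} (h : ℕ) (L : X → X → X) : Prop :=
  ∀ r c : X, Nat.card {p : X × X // p.1 ≠ r ∧ p.2 ≠ c ∧ L r c = L p.1 p.2 ∧
    L r p.2 = L p.1 c} = h

/-- the number of intercalates through a cell, plus one -/
noncomputable def N {X : Type} (L : X → X → X) (r c : X) : ℕ :=
  Nat.card {p : X × X // L r c = L p.1 p.2 ∧ L r p.2 = L p.1 c}

theorem isHomogeneous_of_N {X : Type} [Finite X] (h : ℕ) (L : X → X → X) (hL : IsLatin L)
    (hN : ∀ r c, N L r c = h + 1) : IsHomogeneous h L := by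
  classical
  intro r c
  have h1 := hN r c
  unfold N at h1
  have hset : {p : X × X | L r c = L p.1 p.2 ∧ L r p.2 = L p.1 c} =
      insert (r, c) {p : X × X | p.1 ≠ r ∧ p.2 ≠ c ∧ L r c = L p.1 p.2 ∧ L r p.2 = L p.1 c} := by
    ext ⟨r', c'⟩
    simp only [Set.mem_setOf_eq, Set.mem_insert_iff, Prod.mk.injEq]
    constructor
    · rintro ⟨e1, e2⟩
      by_cases hr : r' = r
      · subst hr
        exact Or.inl ⟨rfl, (hL.1 r').1 e2⟩
      · by_cases hc : c' = c
        · subst hc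
          exact Or.inl ⟨((hL.2 c').1 e1).symm, rfl⟩
        · exact Or.inr ⟨hr, hc, e1, e2⟩
    · rintro (⟨rfl, rfl⟩ | ⟨_, _, e1, e2⟩)
      · exact ⟨rfl, rfl⟩
      · exact ⟨e1, e2⟩
  have h2 : Set.ncard {p : X × X | L r c = L p.1 p.2 ∧ L r p.2 = L p.1 c} = h + 1 := h1
  rw [hset, Set.ncard_insert_of_notMem (by simp) (Set.toFinite _)] at h2
  have h3 : Set.ncard {p : X × X | p.1 ≠ r ∧ p.2 ≠ c ∧ L r c = L p.1 p.2 ∧ L r p.2 = L p.1 c}
      = h := by omega
  exact h3

/-- `X` carries an orthogonal pair of latin squares with `k - 1` intercalates through each cell -/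
def Good (k : ℕ) (X : Type) : Prop :=
  ∃ L M : X → X → X, IsLatin L ∧ IsLatin M ∧ Orthogonal L M ∧ (∀ r c, N L r c = k) ∧
    ∀ r c, N M r c = k

/-- the direct product -/
def prod {X Y : Type} (L : X → X → X) (M : Y → Y → Y) (r c : X × Y) : X × Y :=
  (L r.1 c.1, M r.2 c.2)

theorem prod_latin {X Y : Type} {L : X → X → X} {M : Y → Y → Y} (hL : IsLatin L)
    (hM : IsLatin M) : IsLatin (prod L M) :=
  ⟨fun r => (hL.1 r.1).prodMap (hM.1 r.2), fun c => (hL.2 c.1).prodMap (hM.2 c.2)⟩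

theorem prod_N {X Y : Type} (L : X → X → X) (M : Y → Y → Y) (r c : X × Y) :
    N (prod L M) r c = N L r.1 c.1 * N M r.2 c.2 := by
  unfold N
  rw [← Nat.card_prod]
  refine Nat.card_congr
    { toFun := fun p => (⟨(p.1.1.1, p.1.2.1), ?_⟩, ⟨(p.1.1.2, p.1.2.2), ?_⟩)
      invFun := fun p => ⟨((p.1.1.1, p.2.1.1), (p.1.1.2, p.2.1.2)), ?_⟩
      left_inv := fun p => rfl
      right_inv := fun p => rfl }
  · have h1 := congrArg Prod.fst p.2.1
    have h2 := congrArg Prod.fst p.2.2
    exact ⟨h1, h2⟩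
  · have h1 := congrArg Prod.snd p.2.1
    have h2 := congrArg Prod.snd p.2.2
    exact ⟨h1, h2⟩
  · exact ⟨Prod.ext p.1.2.1 p.2.2.1, Prod.ext p.1.2.2 p.2.2.2⟩

theorem good_prod {X Y : Type} {j k : ℕ} (hX : Good j X) (hY : Good k Y) :
    Good (j * k) (X × Y) := by
  obtain ⟨L, M, hL, hM, hLM, h1, h2⟩ := hX
  obtain ⟨L', M', hL', hM', hLM', h1', h2'⟩ := hY
  refine ⟨prod L L', prod M M', prod_latin hL hL', prod_latin hM hM', ?_, ?_, ?_⟩
  · rintro ⟨⟨a, b⟩, ⟨c, d⟩⟩ ⟨⟨a', b'⟩, ⟨c', d'⟩⟩ h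
    simp only [prod, Prod.mk.injEq] at h
    have e1 := @hLM (a, c) (a', c') (by simp [h.1.1, h.2.1])
    have e2 := @hLM' (b, d) (b', d') (by simp [h.1.2, h.2.2])
    simp only [Prod.mk.injEq] at e1 e2 ⊢
    exact ⟨⟨e1.1, e2.1⟩, e1.2, e2.2⟩
  · intro r c
    rw [prod_N, h1, h1']
  · intro r c
    rw [prod_N, h2, h2']

/-- transport along a bijection -/
def conj {X Y : Type} (e : X ≃ Y) (L : X → X → X) (r c : Y) : Y := e (L (e.symm r) (e.symm c))

theorem conj_latin {X Y : Type} (e : X ≃ Y) {L : X → X → X} (hL : IsLatin L) :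
    IsLatin (conj e L) :=
  ⟨fun r => e.bijective.comp ((hL.1 _).comp e.symm.bijective),
    fun c => e.bijective.comp ((hL.2 _).comp e.symm.bijective)⟩

theorem conj_N {X Y : Type} (e : X ≃ Y) (L : X → X → X) (r c : Y) :
    N (conj e L) r c = N L (e.symm r) (e.symm c) := by
  unfold N
  refine Nat.card_congr (Equiv.subtypeEquiv (Equiv.prodCongr e.symm e.symm) ?_)
  intro p
  simp [conj]

theorem good_congr {X Y : Type} {k : ℕ} (e : X ≃ Y) (hX : Good k X) : Good k Y := by
  obtain ⟨L, M, hL, hM, hLM, h1, h2⟩ := hX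
  refine ⟨conj e L, conj e M, conj_latin e hL, conj_latin e hM, ?_, ?_, ?_⟩
  · rintro ⟨a, b⟩ ⟨a', b'⟩ h
    simp only [conj, Prod.mk.injEq, EmbeddingLike.apply_eq_iff_eq] at h
    have e1 := @hLM (e.symm a, e.symm b) (e.symm a', e.symm b') (by simp [h.1, h.2])
    simpa using e1
  · intro r c
    rw [conj_N, h1]
  · intro r c
    rw [conj_N, h2]

/-- permuting the columns -/
theorem perm_N {X : Type} (L : X → X → X) (φ : X ≃ X) (r c : X) :
    N (fun r c => L r (φ c)) r c = N L r (φ c) := by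
  unfold N
  refine Nat.card_congr (Equiv.subtypeEquiv (Equiv.prodCongr (Equiv.refl X) φ) ?_)
  intro p
  simp

/-- the group `Z_2²` -/
abbrev G := ZMod 2 × ZMod 2

/-- the square `L` -/
def sq {q : ℕ} (m : G → (ZMod q)ˣ) (α : G → ZMod q) (r c : G × ZMod q) : G × ZMod q :=
  (r.1 + c.1, r.2 + m r.1 * c.2 + α c.1)

theorem sq_latin {q : ℕ} (m : G → (ZMod q)ˣ) (α : G → ZMod q) : IsLatin (sq m α) := by
  constructor
  · rintro ⟨x, a⟩
    refine Function.bijective_iff_has_inverse.mpr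
      ⟨fun s => (s.1 - x, ((m x)⁻¹ : (ZMod q)ˣ) * (s.2 - a - α (s.1 - x))), ?_, ?_⟩
    · rintro ⟨y, b⟩
      have e : a + m x * b + α y - a - α y = m x * b := by ring
      simp [sq, e]
    · rintro ⟨y, b⟩
      have e : a + (b - a - α (y - x)) + α (y - x) = b := by ring
      simp [sq, e]
  · rintro ⟨y, b⟩
    refine Function.bijective_iff_has_inverse.mpr
      ⟨fun s => (s.1 - y, s.2 - α y - m (s.1 - y) * b), ?_, ?_⟩
    · rintro ⟨x, a⟩
      simp [sq]
    · rintro ⟨y, b⟩
      simp [sq]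

/-- the column permutation on `Z_2²` -/
def A (y : G) : G := (y.2, y.1 + y.2)

theorem A_key : ∀ x y x' y' : G, x + y = x' + y' → x + A y = x' + A y' → x = x' ∧ y = y' := by
  decide

/-- the column permutation -/
def φ {q : ℕ} (two : (ZMod q)ˣ) : G × ZMod q ≃ G × ZMod q where
  toFun c := (A c.1, two * c.2)
  invFun c := ((c.1.2 - c.1.1, c.1.1), (two⁻¹ : (ZMod q)ˣ) * c.2)
  left_inv c := by
    obtain ⟨⟨u, v⟩, b⟩ := c
    simp [A]
  right_inv c := by
    obtain ⟨⟨u, v⟩, b⟩ := c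
    simp [A]

/-- the number of intercalates through a cell, plus one -/
theorem sq_N {q : ℕ} [NeZero q] (m : G → (ZMod q)ˣ) (α : G → ZMod q) (r c : G × ZMod q) :
    N (sq m α) r c = ∑ d : G, (Finset.univ.filter fun t : ZMod q =>
      (m r.1 + m (r.1 + d)) * t = 2 * (α (c.1 + d) - α c.1)).card := by
  obtain ⟨x, a⟩ := r
  obtain ⟨y, b⟩ := c
  unfold N
  have hG : ∀ u v w z : G, u + v = w + z → u + z = w + v → z = v + (w - u) := by decide
  have hG2 : ∀ u v w : G, u + v = u + w + (v + w) := by decide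
  have h1 : Nat.card {p : (G × ZMod q) × (G × ZMod q) // sq m α (x, a) (y, b) = sq m α p.1 p.2 ∧
      sq m α (x, a) p.2 = sq m α p.1 (y, b)} =
      Nat.card {s : G × ZMod q // (m x + m (x + s.1)) * s.2 = 2 * (α (y + s.1) - α y)} := by
    refine Nat.card_congr
      { toFun := fun p => ⟨(p.1.1.1 - x, b - p.1.2.2), ?_⟩
        invFun := fun s => ⟨((x + s.1.1, a + m x * b + α y - m (x + s.1.1) * (b - s.1.2) -
          α (y + s.1.1)), (y + s.1.1, b - s.1.2)), ?_⟩
        left_inv := ?_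
        right_inv := ?_ }
    · obtain ⟨⟨⟨x', a'⟩, ⟨y', b'⟩⟩, h, h'⟩ := p
      simp only [sq, Prod.mk.injEq] at h h'
      have hy : y' = y + (x' - x) := hG x y x' y' h.1 h'.1
      have hx : x + (x' - x) = x' := by abel
      simp only [hx, ← hy]
      linear_combination h.2 - h'.2
    · obtain ⟨⟨d, t⟩, ht⟩ := s
      simp only [sq, Prod.mk.injEq]
      refine ⟨⟨hG2 x y d, by ring⟩, ⟨?_, ?_⟩⟩
      · abel
      · linear_combination -ht
    · rintro ⟨⟨⟨x', a'⟩, ⟨y', b'⟩⟩, h, h'⟩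
      simp only [sq, Prod.mk.injEq] at h h'
      have hy : y' = y + (x' - x) := hG x y x' y' h.1 h'.1
      have hx : x + (x' - x) = x' := by abel
      simp only [Subtype.mk.injEq, Prod.mk.injEq, hx, ← hy, sub_sub_cancel, and_true, true_and]
      linear_combination h.2
    · rintro ⟨⟨d, t⟩, ht⟩
      simp
  rw [h1, Nat.card_eq_fintype_card, Fintype.card_subtype, Finset.card_filter,
    Fintype.sum_prod_type]
  refine Finset.sum_congr rfl fun d _ => ?_
  rw [Finset.card_filter]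

/-- the general construction -/
theorem good_sq {q : ℕ} [NeZero q] (two : (ZMod q)ˣ) (h2 : (two : ZMod q) = 2)
    (m : G → (ZMod q)ˣ) (α : G → ZMod q) (k : ℕ)
    (hk : ∀ x y : G, ∑ d : G, (Finset.univ.filter fun t : ZMod q =>
      (m x + m (x + d)) * t = 2 * (α (y + d) - α y)).card = k) : Good k (G × ZMod q) := by
  have hL := sq_latin m α
  refine ⟨sq m α, fun r c => sq m α r (φ two c), hL,
    ⟨fun r => (hL.1 r).comp (φ two).bijective, fun c => hL.2 _⟩, ?_, ?_, ?_⟩
  · rintro ⟨⟨x, a⟩, ⟨y, b⟩⟩ ⟨⟨x', a'⟩, ⟨y', b'⟩⟩ h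
    simp only [sq, φ, Equiv.coe_fn_mk, Prod.mk.injEq] at h
    obtain ⟨⟨e1, e2⟩, e3, e4⟩ := h
    obtain ⟨rfl, rfl⟩ := A_key x y x' y' e1 e3
    have e5 : (m x : ZMod q) * b = m x * b' := by
      rw [h2] at e4
      linear_combination e4 - e2
    have e6 : b = b' := (Units.mul_right_inj (m x)).mp e5
    subst e6
    have e7 : a = a' := by linear_combination e2
    subst e7
    rfl
  · intro r c
    rw [sq_N, hk]
  · intro r c
    rw [perm_N, sq_N, hk]

/-- `h = 0` -/
theorem good_one : Good 1 (ZMod 3) := by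
  refine ⟨fun x y => x + y, fun x y => x - y, ?_, ?_, ?_, ?_, ?_⟩
  · unfold IsLatin; decide
  · unfold IsLatin; decide
  · unfold Orthogonal; decide
  · intro r c
    unfold N
    rw [Nat.card_eq_fintype_card]
    revert r c
    decide
  · intro r c
    unfold N
    rw [Nat.card_eq_fintype_card]
    revert r c
    decide

/-- `h = 1` -/
theorem good_two : Good 2 (G × ZMod 3) := by
  refine good_sq (-1) (by decide) (fun x => if x.1 = 0 then 1 else -1)
    (fun y => if y.1 = 0 then 0 else 1) 2 ?_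
  decide

/-- `h = 2` -/
theorem good_three : Good 3 (G × ZMod 5) := by
  refine good_sq ⟨2, 3, by decide, by decide⟩ (by decide)
    (fun x => (if x.1 = 0 then 1 else -1) * (if x.2 = 0 then 1 else ⟨2, 3, by decide, by decide⟩))
    (fun y => if y.1 = 0 then 0 else 1) 3 ?_
  decide

/-- even `h ≥ 4` -/
theorem good_odd (q : ℕ) (hq : Odd q) (h3 : 3 ≤ q) : Good (q + 2) (G × ZMod q) := by
  haveI : NeZero q := ⟨by omega⟩
  haveI : Fact (1 < q) := ⟨by omega⟩
  have hcop : Nat.Coprime 2 q := (Nat.coprime_two_left).mpr hq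
  have h2 : ((ZMod.unitOfCoprime 2 hcop : (ZMod q)ˣ) : ZMod q) = 2 := by simp
  have hu2 : IsUnit (2 : ZMod q) := ⟨_, h2⟩
  have h20 : (2 : ZMod q) ≠ 0 := hu2.ne_zero
  refine good_sq _ h2 (fun x => if x.1 = 0 then 1 else -1)
    (fun y => if y.2 = 0 then 0 else 1) (q + 2) ?_
  have c1 : ∀ u w : ZMod q, IsUnit u →
      (Finset.univ.filter fun t : ZMod q => u * t = w).card = 1 := by
    rintro _ w ⟨u, rfl⟩
    rw [Finset.card_eq_one]
    refine ⟨(u⁻¹ : (ZMod q)ˣ) * w, ?_⟩
    ext t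
    simp only [Finset.mem_filter, Finset.mem_univ, true_and, Finset.mem_singleton]
    constructor
    · rintro rfl
      simp
    · rintro rfl
      simp
  have c0 : ∀ w : ZMod q, w ≠ 0 →
      (Finset.univ.filter fun t : ZMod q => 0 * t = w).card = 0 := by
    intro w hw
    rw [Finset.card_eq_zero, Finset.filter_eq_empty_iff]
    intro t _ h
    exact hw (by rw [← h, zero_mul])
  have cq : (Finset.univ.filter fun t : ZMod q => 0 * t = 0).card = q := by
    simp [ZMod.card]
  have hcases : ∀ z : ZMod 2, z = 0 ∨ z = 1 := by decide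
  have hsum : ∀ f : G → ℕ, ∑ d : G, f d = f (0, 0) + f (0, 1) + f (1, 0) + f (1, 1) := by
    intro f
    rw [Fintype.sum_prod_type]
    have : ∀ g : ZMod 2 → ℕ, ∑ z : ZMod 2, g z = g 0 + g 1 := fun g => Fin.sum_univ_two g
    rw [this, this, this]
    ring
  have e11 : (1 : ZMod 2) + 1 = 0 := by decide
  have e10 : (1 : ZMod 2) ≠ 0 := by decide
  have hu : IsUnit ((1 : ZMod q) + 1) := by
    rw [one_add_one_eq_two]; exact hu2
  have hu' : IsUnit ((-1 : ZMod q) + -1) := by
    have := hu.neg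
    rwa [neg_add] at this
  have hn1 : (2 : ZMod q) * 1 ≠ 0 := by rwa [mul_one]
  have hn2 : (2 : ZMod q) * (-1) ≠ 0 := by simpa using h20
  rintro ⟨x1, x2⟩ ⟨y1, y2⟩
  rw [hsum]
  rcases hcases x1 with rfl | rfl <;> rcases hcases y2 with rfl | rfl <;>
    simp [e11, e10, c1 _ _ hu, c1 _ _ hu', h20, h20.symm, ZMod.card] <;> omega

theorem good_all : ∀ k : ℕ, 1 ≤ k → ∃ (X : Type), Finite X ∧ Nonempty X ∧ Good k X := by
  intro k
  induction k using Nat.strong_induction_on with
  | _ k ih =>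
    intro hk
    rcases Nat.even_or_odd' k with ⟨j, rfl | rfl⟩
    · obtain ⟨X, hX, hX', hG⟩ := ih j (by omega) (by omega)
      exact ⟨(G × ZMod 3) × X, inferInstance, inferInstance, good_prod good_two hG⟩
    · rcases Nat.lt_or_ge j 2 with hj | hj
      · interval_cases j
        · exact ⟨ZMod 3, inferInstance, inferInstance, good_one⟩
        · exact ⟨G × ZMod 5, inferInstance, inferInstance, good_three⟩
      · have h1 : 2 * j + 1 = (2 * j - 1) + 2 := by omega
        haveI : NeZero (2 * j - 1) := ⟨by omega⟩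
        refine ⟨G × ZMod (2 * j - 1), inferInstance, inferInstance, ?_⟩
        rw [h1]
        exact good_odd _ ⟨j - 1, by omega⟩ (by omega)

/-- For every `h ≥ 0` there are an order `n ≥ 1` and two orthogonal latin squares of order `n`
that are both `h`-homogeneous: `H` is the set of all nonnegative integers. -/
theorem result : ∀ h : ℕ, ∃ n : ℕ, 1 ≤ n ∧ ∃ L M : Fin n → Fin n → Fin n,
    IsLatin L ∧ IsLatin M ∧ Orthogonal L M ∧ IsHomogeneous h L ∧ IsHomogeneous h M := by
  intro h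
  obtain ⟨X, hX, hX', hG⟩ := good_all (h + 1) (by omega)
  haveI := Fintype.ofFinite X
  obtain ⟨L, M, hL, hM, hLM, h1, h2⟩ := good_congr (Fintype.equivFin X) hG
  exact ⟨Fintype.card X, Fintype.card_pos, L, M, hL, hM, hLM, isHomogeneous_of_N h L hL h1,
    isHomogeneous_of_N h M hM h2⟩

end Pool.Agent.Results.MP_510a26_co.EveryHomogeneity
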